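import Mathlib

/-!
Closed 2-forms and symplectic forms on smooth manifolds, in charts; pull-backs under maps which are
affine in suitable charts.
-/

set_option autoImplicit false

open scoped Manifold ContDiff
open Set Function

namespace Pool.Agent.TH809.SY

section Defs

variable {E H M : Type*} [NormedAddCommGroup E] [NormedSpace ℝ E] [TopologicalSpace H]
  (I : ModelWithCorners ℝ E H) [TopologicalSpace M] [ChartedSpace H M]

/-- The derivative at `y` of the inverse of the chart of `M` at `p₀` (the tangent spaces of `M` are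
`E` in Mathlib). -/
noncomputable def dch (p₀ : M) (y : E) : E →L[ℝ] E := mfderiv 𝓘(ℝ, E) I (extChartAt I p₀).symm y

/-- The derivative at `p` of a map from `M` to itself. -/
noncomputable def dmap (g : M → M) (p : M) : E →L[ℝ] E := mfderiv I I g p

/-- The coordinate expression of a field of bilinear forms `Ω` on the tangent spaces of `M` (each of
them is `E` in Mathlib) in the chart at `p₀`: the value at the point `y` of the image of the chart
on the vectors `u`, `v`. -/
noncomputable def coord (Ω : M → LinearMap.BilinForm ℝ E) (p₀ : M) (y u v : E) : ℝ :=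
  Ω ((extChartAt I p₀).symm y) (dch I p₀ y u) (dch I p₀ y v)

/-- `Ω` is a smooth closed 2-form. -/
structure IsClosedForm (Ω : M → LinearMap.BilinForm ℝ E) : Prop where
  alt : ∀ p u, Ω p u u = 0
  smooth : ∀ (p₀ : M) (u v : E), ContDiffOn ℝ ∞ (fun y => coord I Ω p₀ y u v) (extChartAt I p₀).target
  closed : ∀ (p₀ : M), ∀ y ∈ (extChartAt I p₀).target, ∀ u v w : E,
    fderiv ℝ (fun z => coord I Ω p₀ z v w) y u - fderiv ℝ (fun z => coord I Ω p₀ z u w) y v +
      fderiv ℝ (fun z => coord I Ω p₀ z u v) y w = 0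

/-- `Ω` is a symplectic form. -/
structure IsSymplectic (Ω : M → LinearMap.BilinForm ℝ E) : Prop extends IsClosedForm I Ω where
  nondeg : ∀ p u, (∀ v, Ω p u v = 0) → u = 0

/-- `Ω` is invariant under the map `g`: `g^* Ω = Ω`. -/
def Invariant (g : M → M) (Ω : M → LinearMap.BilinForm ℝ E) : Prop :=
  ∀ (p : M) (u v : E), Ω (g p) (dmap I g p u) (dmap I g p v) = Ω p u v

end Defs

section pull

variable {E H X E' H' M : Type*} [NormedAddCommGroup E] [NormedSpace ℝ E] [TopologicalSpace H]
  {I : ModelWithCorners ℝ E H} [TopologicalSpace X] [ChartedSpace H X] [I.Boundaryless]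
  [NormedAddCommGroup E'] [NormedSpace ℝ E'] [TopologicalSpace H']
  {I' : ModelWithCorners ℝ E' H'} [TopologicalSpace M] [ChartedSpace H' M] [I'.Boundaryless]

variable (I I') in
/-- The map `i` is affine in suitable charts, with linear part `L`, and its derivative is `L`. -/
def Chartwise (L : E →L[ℝ] E') (i : X → M) : Prop :=
  ∀ x₀ : X, ∃ (p₀ : M) (c : E'), ∀ y ∈ (extChartAt I x₀).target,
    L y + c ∈ (extChartAt I' p₀).target ∧
    (extChartAt I' p₀).symm (L y + c) = i ((extChartAt I x₀).symm y) ∧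
    ∀ u : E, dch I' p₀ (L y + c) (L u) = L (dch I x₀ y u)

/-- The form `(u, v) ↦ Ω (i x) (L u) (L v)`. -/
def pull (L : E →L[ℝ] E') (i : X → M) (Ω : M → LinearMap.BilinForm ℝ E') (x : X) :
    LinearMap.BilinForm ℝ E :=
  (Ω (i x)).compl₁₂ (L : E →ₗ[ℝ] E') (L : E →ₗ[ℝ] E')

omit [TopologicalSpace X] [TopologicalSpace M] in
@[simp] theorem pull_apply (L : E →L[ℝ] E') (i : X → M) (Ω : M → LinearMap.BilinForm ℝ E') (x : X)
    (u v : E) : pull L i Ω x u v = Ω (i x) (L u) (L v) := rfl

theorem pull_closed {L : E →L[ℝ] E'} {i : X → M} (h : Chartwise I I' L i)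
    {Ω : M → LinearMap.BilinForm ℝ E'} (hΩ : IsClosedForm I' Ω) : IsClosedForm I (pull L i Ω) := by
  have key : ∀ x₀ : X, ∃ (p₀ : M) (c : E'), ∀ y ∈ (extChartAt I x₀).target,
      L y + c ∈ (extChartAt I' p₀).target ∧ ∀ u v : E,
      coord I (pull L i Ω) x₀ y u v = coord I' Ω p₀ (L y + c) (L u) (L v) := by
    intro x₀
    obtain ⟨p₀, c, hc⟩ := h x₀
    refine ⟨p₀, c, fun y hy => ⟨(hc y hy).1, fun u v => ?_⟩⟩
    obtain ⟨_, h2, h3⟩ := hc y hy
    unfold coord
    rw [h2, h3 u, h3 v]
    rfl
  refine ⟨fun x u => hΩ.alt _ _, fun x₀ u v => ?_, fun x₀ y hy u v w => ?_⟩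
  · obtain ⟨p₀, c, hc⟩ := key x₀
    have h1 : ContDiffOn ℝ ∞ (fun y : E => coord I' Ω p₀ (L y + c) (L u) (L v))
        (extChartAt I x₀).target :=
      (hΩ.smooth p₀ (L u) (L v)).comp (L.contDiff.add contDiff_const).contDiffOn
        fun y hy => (hc y hy).1
    exact h1.congr fun y hy => (hc y hy).2 u v
  · obtain ⟨p₀, c, hc⟩ := key x₀
    have hopen : IsOpen (extChartAt I x₀).target := isOpen_extChartAt_target x₀
    have hopen' : IsOpen (extChartAt I' p₀).target := isOpen_extChartAt_target p₀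
    have hf : ∀ a b d : E, fderiv ℝ (fun z => coord I (pull L i Ω) x₀ z a b) y d =
        fderiv ℝ (fun z => coord I' Ω p₀ z (L a) (L b)) (L y + c) (L d) := by
      intro a b d
      have e1 : (fun z => coord I (pull L i Ω) x₀ z a b) =ᶠ[nhds y]
          (fun z => coord I' Ω p₀ z (L a) (L b)) ∘ fun z => L z + c := by
        filter_upwards [hopen.mem_nhds hy] with z hz
        exact (hc z hz).2 a b
      have hd : DifferentiableAt ℝ (fun z => coord I' Ω p₀ z (L a) (L b)) (L y + c) :=
        ((hΩ.smooth p₀ (L a) (L b)).differentiableOn (by simp)).differentiableAt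
          (hopen'.mem_nhds (hc y hy).1)
      have hL : HasFDerivAt (fun z : E => L z + c) L y := L.hasFDerivAt.add_const c
      rw [e1.fderiv_eq, (hd.hasFDerivAt.comp y hL).fderiv]
      rfl
    rw [hf, hf, hf]
    exact hΩ.closed p₀ (L y + c) (hc y hy).1 (L u) (L v) (L w)

omit [I.Boundaryless] in
theorem coord_add (Ω σ : X → LinearMap.BilinForm ℝ E) (x₀ : X) (y u v : E) :
    coord I (fun x => Ω x + σ x) x₀ y u v = coord I Ω x₀ y u v + coord I σ x₀ y u v := rfl

theorem add_closed {Ω σ : X → LinearMap.BilinForm ℝ E} (hΩ : IsClosedForm I Ω)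
    (hσ : IsClosedForm I σ) : IsClosedForm I (fun x => Ω x + σ x) := by
  refine ⟨fun x u => ?_, fun x₀ u v => ?_, fun x₀ y hy u v w => ?_⟩
  · show Ω x u u + σ x u u = 0
    rw [hΩ.alt, hσ.alt, add_zero]
  · simp only [coord_add]
    exact (hΩ.smooth x₀ u v).add (hσ.smooth x₀ u v)
  · have hopen : IsOpen (extChartAt I x₀).target := isOpen_extChartAt_target x₀
    have hd : ∀ {τ : X → LinearMap.BilinForm ℝ E}, IsClosedForm I τ → ∀ a b : E,
        DifferentiableAt ℝ (fun z => coord I τ x₀ z a b) y := fun {τ} hτ a b =>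
      ((hτ.smooth x₀ a b).differentiableOn (by simp)).differentiableAt (hopen.mem_nhds hy)
    have hf : ∀ a b d : E, fderiv ℝ (fun z => coord I (fun x => Ω x + σ x) x₀ z a b) y d =
        fderiv ℝ (fun z => coord I Ω x₀ z a b) y d + fderiv ℝ (fun z => coord I σ x₀ z a b) y d := by
      intro a b d
      simp only [coord_add]
      rw [fderiv_fun_add (hd hΩ a b) (hd hσ a b)]
      rfl
    rw [hf, hf, hf]
    have h1 := hΩ.closed x₀ y hy u v w
    have h2 := hσ.closed x₀ y hy u v w
    linarith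

end pull

end Pool.Agent.TH809.SY
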