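import Pool.Agent.TH242.TI.Main

/-!
Invariant symplectic forms on `X × V`: the part along the fibres, and the one-forms obtained by
contraction with the kernel of this part.  Built on the coordinate computations in TH242.TI.
-/

set_option autoImplicit false

open Set Filter Topology
open scoped ContDiff Manifold

namespace Pool.Agent.TH809.SY

open Pool.Agent.TH242.TI

section

variable {E X V : Type*} [NormedAddCommGroup E] [NormedSpace ℝ E]
  [NormedAddCommGroup V] [NormedSpace ℝ V]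
  [TopologicalSpace X] [ChartedSpace E X] [IsManifold 𝓘(ℝ, E) ∞ X]

variable {om : atlas E X → E × V → (E × V) →L[ℝ] (E × V) →L[ℝ] ℝ}

/-- contraction with `v`, restricted to `E` -/
noncomputable def LM (E : Type*) {V : Type*} [NormedAddCommGroup E] [NormedSpace ℝ E]
    [NormedAddCommGroup V] [NormedSpace ℝ V] (v : V) :
    ((E × V) →L[ℝ] (E × V) →L[ℝ] ℝ) →L[ℝ] (E →L[ℝ] ℝ) :=
  ((ContinuousLinearMap.compL ℝ E (E × V) ℝ).flip (ContinuousLinearMap.inl ℝ E V)).comp
    (ContinuousLinearMap.apply ℝ ((E × V) →L[ℝ] ℝ) ((0 : E), v))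

theorem LM_apply (v : V) (Φ : (E × V) →L[ℝ] (E × V) →L[ℝ] ℝ) (u : E) :
    LM E v Φ u = Φ (0, v) (u, 0) := rfl

theorem LM_smooth (h : Sym (fun e : atlas E X => pc V (e : OpenPartialHomeomorph X E)) om)
    (v : V) (e : atlas E X) :
    ContDiffOn ℝ ∞ (fun y => LM E v (Om om e y)) (e : OpenPartialHomeomorph X E).target :=
  smooth_clm (G := (E × V) →L[ℝ] (E × V) →L[ℝ] ℝ) (H := E →L[ℝ] ℝ) (LM E v) (Om_smooth h e)

theorem LM_compat (h : Sym (fun e : atlas E X => pc V (e : OpenPartialHomeomorph X E)) om)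
    (v : V) (e e' : atlas E X) {x : X} (hx : x ∈ (e : OpenPartialHomeomorph X E).source)
    (hx' : x ∈ (e' : OpenPartialHomeomorph X E).source) (u : E) :
    LM E v (Om om e ((e : OpenPartialHomeomorph X E) x)) u =
      LM E v (Om om e' ((e' : OpenPartialHomeomorph X E) x))
        (fderiv ℝ ((e' : OpenPartialHomeomorph X E) ∘ (e : OpenPartialHomeomorph X E).symm)
          ((e : OpenPartialHomeomorph X E) x) u) := by
  rw [LM_apply, LM_apply, Om_compat h e e' hx hx', map_zero]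

theorem LM_fderiv (h : Sym (fun e : atlas E X => pc V (e : OpenPartialHomeomorph X E)) om)
    (v : V) (e : atlas E X) {y : E} (hy : y ∈ (e : OpenPartialHomeomorph X E).target) (a b : E) :
    fderiv ℝ (fun y => LM E v (Om om e y)) y a b = fderiv ℝ (Om om e) y a (0, v) (b, 0) := by
  have h2 : HasFDerivAt (LM E v : ((E × V) →L[ℝ] (E × V) →L[ℝ] ℝ) → (E →L[ℝ] ℝ)) (LM E v)
      (Om om e y) :=
    ContinuousLinearMap.hasFDerivAt (𝕜 := ℝ) (E := (E × V) →L[ℝ] (E × V) →L[ℝ] ℝ)
      (F := E →L[ℝ] ℝ) (LM E v)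
  have h3 : HasFDerivAt (Om om e) (fderiv ℝ (Om om e) y) y := (Om_diff h e hy).hasFDerivAt
  have h4 := HasFDerivAt.comp (𝕜 := ℝ) (E := E) (F := (E × V) →L[ℝ] (E × V) →L[ℝ] ℝ)
    (G := E →L[ℝ] ℝ) y h2 h3
  have h5 : fderiv ℝ (fun y => LM E v (Om om e y)) y =
      (LM E v).comp (fderiv ℝ (Om om e) y) := h4.fderiv
  rw [h5]
  rfl

theorem LM_closed (h : Sym (fun e : atlas E X => pc V (e : OpenPartialHomeomorph X E)) om)
    (hi : Inv om) (v : V) (e : atlas E X) {y : E}
    (hy : y ∈ (e : OpenPartialHomeomorph X E).target) (a b : E) :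
    fderiv ℝ (fun y => LM E v (Om om e y)) y a b =
      fderiv ℝ (fun y => LM E v (Om om e y)) y b a := by
  rw [LM_fderiv h v e hy, LM_fderiv h v e hy]
  have h3 := Om_closed h hi e hy (a, 0) (b, 0) (0, v)
  have h4 := Om_dalt h e hy a (b, 0) (0, v)
  have h5 : fderiv ℝ (Om om e) y (0 : E) (a, 0) (b, 0) = 0 := by
    rw [map_zero]; rfl
  simp only at h3
  rw [h5, h4] at h3
  linarith

/-- contraction with a nonzero vector of the kernel of the fibre part has no zeros -/
theorem LM_ne (h : Sym (fun e : atlas E X => pc V (e : OpenPartialHomeomorph X E)) om)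
    {e : atlas E X} {y : E} (hy : y ∈ (e : OpenPartialHomeomorph X E).target) {v : V} (hv : v ≠ 0)
    (hB : ∀ v' : V, Om om e y (0, v) (0, v') = 0) : LM E v (Om om e y) ≠ 0 := by
  intro h0
  have h1 : ((0 : E), v) ≠ 0 := fun h2 => hv (congrArg Prod.snd h2)
  obtain ⟨⟨u, v'⟩, h3⟩ := h.nondeg e (y, 0) ⟨hy, mem_univ _⟩ _ h1
  apply h3
  have h4 : Om om e y (0, v) (u, v') = Om om e y (0, v) (u, 0) + Om om e y (0, v) (0, v') :=
    split (Om om e y) _ u v'
  have h5 : Om om e y (0, v) (u, 0) = 0 := by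
    rw [← LM_apply, h0]; rfl
  show Om om e y (0, v) (u, v') = 0
  rw [h4, h5, hB, add_zero]

/-- if the fibre part is nondegenerate then the base is symplectic -/
theorem forward_nd [FiniteDimensional ℝ V]
    (h : Sym (fun e : atlas E X => pc V (e : OpenPartialHomeomorph X E)) om) (hi : Inv om)
    {B : V →L[ℝ] V →L[ℝ] ℝ} (hB : ∀ e : atlas E X, ∀ y ∈ (e : OpenPartialHomeomorph X E).target,
      ∀ v v' : V, Om om e y (0, v) (0, v') = B v v') (hn : ND B) :
    ∃ sg : atlas E X → E → E →L[ℝ] E →L[ℝ] ℝ,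
      Sym (fun e : atlas E X => (e : OpenPartialHomeomorph X E)) sg := by
  obtain ⟨k, hk⟩ := hn.equiv
  have hpt : ∀ e : atlas E X, ∀ y ∈ (e : OpenPartialHomeomorph X E).target,
      Pt k B 0 0 (Om om e y) := by
    intro e y hy
    refine ⟨fun v v' => ?_, fun v => rfl, fun a b => Om_alt h e hy a b, hB e y hy⟩
    have h1 : k v = B v := by rw [← hk]; rfl
    rw [h1]; simp
  have hNd : ∀ e : atlas E X, ∀ y ∈ (e : OpenPartialHomeomorph X E).target,
      ND (addK 0 0 (Om om e y)) := by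
    intro e y hy u hu
    obtain ⟨v, hv⟩ := h.nondeg e (y, 0) ⟨hy, mem_univ _⟩ u hu
    refine ⟨v, ?_⟩
    rw [addK_apply]
    simpa [Om] using hv
  set J : (V →L[ℝ] ℝ) →L[ℝ] V := (k.symm : (V →L[ℝ] ℝ) →L[ℝ] V) with hJ
  refine ⟨fun e y => SG J (Om om e y), ?_, ?_, ?_, ?_, ?_⟩
  · intro e
    exact (SG_smooth J).comp_contDiffOn (Om_smooth h e)
  · intro e y hy u
    exact (hpt e y hy).salt u
  · intro e e' x hx u w
    show SG J (Om om e ((e : OpenPartialHomeomorph X E) x)) u w = SG J (Om om e'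
      ((e' : OpenPartialHomeomorph X E) x))
        (fderiv ℝ ((e' : OpenPartialHomeomorph X E) ∘ (e : OpenPartialHomeomorph X E).symm)
          ((e : OpenPartialHomeomorph X E) x) u)
        (fderiv ℝ ((e' : OpenPartialHomeomorph X E) ∘ (e : OpenPartialHomeomorph X E).symm)
          ((e : OpenPartialHomeomorph X E) x) w)
    set T := fderiv ℝ ((e' : OpenPartialHomeomorph X E) ∘ (e : OpenPartialHomeomorph X E).symm)
      ((e : OpenPartialHomeomorph X E) x) with hT
    have hA : AA J (Om om e ((e : OpenPartialHomeomorph X E) x)) w =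
        AA J (Om om e' ((e' : OpenPartialHomeomorph X E) x)) (T w) := by
      rw [AA_apply, AA_apply]
      congr 2
      ext v
      rw [pr_apply, pr_apply, Om_compat h e e' hx.1 hx.2, ← hT, map_zero]
    rw [SG_apply, SG_apply, Om_compat h e e' hx.1 hx.2, ← hT, hA]
  · intro e y hy u v w
    rw [dSG (Om_diff h e hy) (hpt e y hy), dSG (Om_diff h e hy) (hpt e y hy),
      dSG (Om_diff h e hy) (hpt e y hy)]
    have h1 := Om_closed h hi e hy (u, 0) (v, 0) (w, 0)
    have h2 : ∀ (a b : E) (s : V), fderiv ℝ (Om om e) y a (b, 0) (0, s) =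
        fderiv ℝ (Om om e) y b (a, 0) (0, s) := by
      intro a b s
      have h3 := Om_closed h hi e hy (a, 0) (b, 0) (0, s)
      have h4 := Om_dalt h e hy b (0, s) (a, 0)
      have h5 : fderiv ℝ (Om om e) y (0 : E) (a, 0) (b, 0) = 0 := by
        rw [map_zero]; rfl
      simp only at h3
      rw [h5, h4] at h3
      linarith
    have e1 := h2 u v (AA J (Om om e y) w)
    have e2 := h2 v w (AA J (Om om e y) u)
    have e3 := h2 w u (AA J (Om om e y) v)
    simp only at h1
    linarith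
  · intro e y hy u hu
    exact (hpt e y hy).snd (hNd e y hy) hu

/-- the product of a symplectic form on `X` and a nondegenerate form on `V` -/
theorem backward_nd {K : V →L[ℝ] V →L[ℝ] ℝ} (hK : ∀ v, K v v = 0) (hKn : ND K)
    {sg : atlas E X → E → E →L[ℝ] E →L[ℝ] ℝ}
    (h : Sym (fun e : atlas E X => (e : OpenPartialHomeomorph X E)) sg) :
    ∃ om : atlas E X → E × V → (E × V) →L[ℝ] (E × V) →L[ℝ] ℝ,
      Sym (fun e : atlas E X => pc V (e : OpenPartialHomeomorph X E)) om ∧
        (∀ (e : atlas E X) (y : E) (s t : V), om e (y, s) = om e (y, t)) ∧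
        ∀ (e : atlas E X) (p : E × V) (v v' : V), om e p (0, v) (0, v') = K v v' := by
  let C : (E × V) →L[ℝ] (E × V) →L[ℝ] ℝ :=
    K.bilinearComp (ContinuousLinearMap.snd ℝ E V) (ContinuousLinearMap.snd ℝ E V)
  have hC : ∀ a b, C a b = K a.2 b.2 := fun _ _ => rfl
  let om : atlas E X → E × V → (E × V) →L[ℝ] (E × V) →L[ℝ] ℝ := fun e p =>
    LL E V (sg e p.1) + C
  have hom : ∀ e p a b, om e p a b = sg e p.1 a.1 b.1 + K a.2 b.2 := fun _ _ _ _ => rfl
  refine ⟨om, ⟨?_, ?_, ?_, ?_, ?_⟩, fun e y s t => rfl, fun e p v v' => ?_⟩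
  · intro e
    have h1 : ContDiffOn ℝ ∞ (fun p : E × V => sg e p.1)
        (pc V (e : OpenPartialHomeomorph X E)).target :=
      (h.smooth e).comp contDiff_fst.contDiffOn (fun p hp => hp.1)
    have h2 : ContDiffOn ℝ ∞ (fun p : E × V => LL E V (sg e p.1))
        (pc V (e : OpenPartialHomeomorph X E)).target :=
      smooth_clm (G := E →L[ℝ] E →L[ℝ] ℝ) (H := (E × V) →L[ℝ] (E × V) →L[ℝ] ℝ) (LL E V) h1
    exact smooth_add (G := (E × V) →L[ℝ] (E × V) →L[ℝ] ℝ) h2 C
  · intro e y hy u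
    rw [hom, h.alt e y.1 hy.1, hK, add_zero]
  · rintro e e' ⟨x, s⟩ ⟨hx, hx'⟩ ⟨a, v⟩ ⟨b, v'⟩
    have h1 := pc_trans (V := V) e.2 e'.2 hx.1 hx'.1 s
    show om e (pc V (e : OpenPartialHomeomorph X E) (x, s)) (a, v) (b, v') =
      om e' (pc V (e' : OpenPartialHomeomorph X E) (x, s))
        (fderiv ℝ (pc V (e' : OpenPartialHomeomorph X E) ∘
          (pc V (e : OpenPartialHomeomorph X E)).symm)
            (pc V (e : OpenPartialHomeomorph X E) (x, s)) (a, v))
        (fderiv ℝ (pc V (e' : OpenPartialHomeomorph X E) ∘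
          (pc V (e : OpenPartialHomeomorph X E)).symm)
            (pc V (e : OpenPartialHomeomorph X E) (x, s)) (b, v'))
    rw [h1, h1, hom, hom]
    have h2 := h.compat e e' x ⟨hx.1, hx'.1⟩ a b
    show sg e ((e : OpenPartialHomeomorph X E) x) a b + K v v' = _
    rw [h2]
    rfl
  · intro e y hy u v w
    have hd : DifferentiableAt ℝ (sg e) y.1 :=
      ((h.smooth e).contDiffAt ((e : OpenPartialHomeomorph X E).open_target.mem_nhds hy.1)
        ).differentiableAt (by simp)
    have h1 : HasFDerivAt (fun p : E × V => sg e p.1)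
        ((fderiv ℝ (sg e) y.1).comp (ContinuousLinearMap.fst ℝ E V)) y :=
      HasFDerivAt.comp (𝕜 := ℝ) (E := E × V) (F := E) (G := E →L[ℝ] E →L[ℝ] ℝ) y
        hd.hasFDerivAt hasFDerivAt_fst
    have h2 : HasFDerivAt (LL E V : (E →L[ℝ] E →L[ℝ] ℝ) → _) (LL E V) (sg e y.1) :=
      ContinuousLinearMap.hasFDerivAt (𝕜 := ℝ) (E := E →L[ℝ] E →L[ℝ] ℝ)
        (F := (E × V) →L[ℝ] (E × V) →L[ℝ] ℝ) (LL E V)
    have h3 : HasFDerivAt (fun p : E × V => LL E V (sg e p.1))
        ((LL E V).comp ((fderiv ℝ (sg e) y.1).comp (ContinuousLinearMap.fst ℝ E V))) y :=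
      HasFDerivAt.comp (𝕜 := ℝ) (E := E × V) (F := E →L[ℝ] E →L[ℝ] ℝ)
        (G := (E × V) →L[ℝ] (E × V) →L[ℝ] ℝ) y h2 h1
    have h4 : fderiv ℝ (om e) y =
        (LL E V).comp ((fderiv ℝ (sg e) y.1).comp (ContinuousLinearMap.fst ℝ E V)) :=
      der_add (F := E × V) (G := (E × V) →L[ℝ] (E × V) →L[ℝ] ℝ) h3 C
    have h5 := h.closed e y.1 hy.1 u.1 v.1 w.1
    show fderiv ℝ (om e) y u v w + fderiv ℝ (om e) y v w u + fderiv ℝ (om e) y w u v = 0
    rw [h4]
    exact h5
  · rintro e y hy ⟨a, v⟩ hav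
    by_cases ha : a = 0
    · have hv : v ≠ 0 := by
        intro hv
        exact hav (by rw [ha, hv]; rfl)
      obtain ⟨v', hv'⟩ := hKn v hv
      refine ⟨(0, v'), ?_⟩
      rw [hom, ha]
      simpa using hv'
    · obtain ⟨b, hb⟩ := h.nondeg e y.1 hy.1 a ha
      refine ⟨(b, 0), ?_⟩
      rw [hom]
      simpa using hb
  · rw [hom]
    simp

/-- on a compact manifold a closed one-form without zeros is not exact -/
theorem not_exact [CompactSpace X] [Nonempty X] {α : atlas E X → E → E →L[ℝ] ℝ}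
    (hα : ∀ e : atlas E X, ∀ y ∈ (e : OpenPartialHomeomorph X E).target, α e y ≠ 0) (f : X → ℝ) :
    ∃ e : atlas E X, ∃ y ∈ (e : OpenPartialHomeomorph X E).target,
      ¬ HasFDerivAt (f ∘ (e : OpenPartialHomeomorph X E).symm) (α e y) y := by
  by_contra hcon
  push Not at hcon
  have hc : Continuous f := by
    rw [continuous_iff_continuousAt]
    intro x
    set e : atlas E X := ⟨chartAt E x, chart_mem_atlas E x⟩ with he
    have hx : x ∈ (e : OpenPartialHomeomorph X E).source := mem_chart_source E x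
    have h1 := (hcon e _ ((e : OpenPartialHomeomorph X E).map_source hx)).continuousAt
    have h2 := ContinuousAt.comp (f := (e : OpenPartialHomeomorph X E))
      (g := f ∘ (e : OpenPartialHomeomorph X E).symm) h1
      ((e : OpenPartialHomeomorph X E).continuousAt hx)
    refine h2.congr ?_
    filter_upwards [(e : OpenPartialHomeomorph X E).open_source.mem_nhds hx] with z hz
    simp [(e : OpenPartialHomeomorph X E).left_inv hz]
  obtain ⟨x, -, hx⟩ := isCompact_univ.exists_isMaxOn univ_nonempty hc.continuousOn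
  set e : atlas E X := ⟨chartAt E x, chart_mem_atlas E x⟩ with he
  have hxs : x ∈ (e : OpenPartialHomeomorph X E).source := mem_chart_source E x
  have hy := (e : OpenPartialHomeomorph X E).map_source hxs
  refine hα e _ hy ?_
  refine IsLocalMax.hasFDerivAt_eq_zero (f := f ∘ (e : OpenPartialHomeomorph X E).symm) ?_
    (hcon e _ hy)
  refine Filter.Eventually.of_forall fun z => ?_
  show f _ ≤ f _
  rw [(e : OpenPartialHomeomorph X E).left_inv hxs]
  exact hx (mem_univ _)

end

end Pool.Agent.TH809.SY
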