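import Pool.Agent.TH809.SY.Basic

/-!
Products: the charts, the projections and the slices.
-/

set_option autoImplicit false
set_option linter.unusedSectionVars false

open scoped Manifold ContDiff
open Set Function

namespace Pool.Agent.TH809.SY

variable {E H X : Type*} [NormedAddCommGroup E] [NormedSpace ℝ E] [TopologicalSpace H]
  {I : ModelWithCorners ℝ E H} [TopologicalSpace X] [ChartedSpace H X] [I.Boundaryless]
  [IsManifold I ∞ X]
  {F G Y : Type*} [NormedAddCommGroup F] [NormedSpace ℝ F] [TopologicalSpace G]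
  {J : ModelWithCorners ℝ F G} [TopologicalSpace Y] [ChartedSpace G Y] [J.Boundaryless]
  [IsManifold J ∞ Y]

theorem mdiff_symm (x₀ : X) {y : E} (hy : y ∈ (extChartAt I x₀).target) :
    MDifferentiableAt 𝓘(ℝ, E) I (extChartAt I x₀).symm y := by
  have : IsManifold I 1 X := IsManifold.of_le (n := ∞) (by norm_num)
  have h := mdifferentiableWithinAt_extChartAt_symm (I := I) (x := x₀) hy
  rwa [I.range_eq_univ, mdifferentiableWithinAt_univ] at h

theorem dch_prod (p₀ : X × Y) {z : E × F} (hz : z ∈ (extChartAt (I.prod J) p₀).target) (w : E × F) :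
    dch (I.prod J) p₀ z w = (dch I p₀.1 z.1 w.1, dch J p₀.2 z.2 w.2) := by
  have hz' : z.1 ∈ (extChartAt I p₀.1).target ∧ z.2 ∈ (extChartAt J p₀.2).target := by
    rw [extChartAt_prod] at hz
    exact hz
  have e : ((extChartAt (I.prod J) p₀).symm : E × F → X × Y) =
      Prod.map (extChartAt I p₀.1).symm (extChartAt J p₀.2).symm := by
    rw [extChartAt_prod]
    rfl
  have h := mfderiv_prodMap (I := 𝓘(ℝ, E)) (I' := 𝓘(ℝ, F)) (J := I) (J' := J) (p := z)
    (mdiff_symm p₀.1 hz'.1) (mdiff_symm p₀.2 hz'.2)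
  unfold dch
  rw [e]
  rw [← modelWithCornersSelf_prod, chartedSpaceSelf_prod] at h
  rw [h]
  rfl

theorem target_prod (p₀ : X × Y) (z : E × F) : z ∈ (extChartAt (I.prod J) p₀).target ↔
    z.1 ∈ (extChartAt I p₀.1).target ∧ z.2 ∈ (extChartAt J p₀.2).target := by
  rw [extChartAt_prod]
  rfl

theorem symm_prod (p₀ : X × Y) (z : E × F) : (extChartAt (I.prod J) p₀).symm z =
    ((extChartAt I p₀.1).symm z.1, (extChartAt J p₀.2).symm z.2) := by
  rw [extChartAt_prod]
  rfl

theorem chartwise_fst :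
    Chartwise (I.prod J) I (ContinuousLinearMap.fst ℝ E F) (Prod.fst : X × Y → X) := by
  intro p₀
  refine ⟨p₀.1, 0, fun z hz => ?_⟩
  have h := (target_prod p₀ z).1 hz
  simp only [add_zero]
  refine ⟨h.1, ?_, fun w => ?_⟩
  · rw [symm_prod]; rfl
  · rw [dch_prod p₀ hz]; rfl

theorem chartwise_snd :
    Chartwise (I.prod J) J (ContinuousLinearMap.snd ℝ E F) (Prod.snd : X × Y → Y) := by
  intro p₀
  refine ⟨p₀.2, 0, fun z hz => ?_⟩
  have h := (target_prod p₀ z).1 hz
  simp only [add_zero]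
  refine ⟨h.2, ?_, fun w => ?_⟩
  · rw [symm_prod]; rfl
  · rw [dch_prod p₀ hz]; rfl

theorem chartwise_inl (y₀ : Y) :
    Chartwise I (I.prod J) (ContinuousLinearMap.inl ℝ E F) (fun x : X => (x, y₀)) := by
  intro x₀
  refine ⟨(x₀, y₀), (0, extChartAt J y₀ y₀), fun z hz => ?_⟩
  have e : ContinuousLinearMap.inl ℝ E F z + (0, extChartAt J y₀ y₀) = (z, extChartAt J y₀ y₀) := by
    simp
  have ht : (z, extChartAt J y₀ y₀) ∈ (extChartAt (I.prod J) (x₀, y₀)).target :=
    (target_prod _ _).2 ⟨hz, mem_extChartAt_target y₀⟩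
  rw [e]
  refine ⟨ht, ?_, fun u => ?_⟩
  · rw [symm_prod]
    simp
  · rw [dch_prod _ ht]
    simp

theorem chartwise_diag :
    Chartwise I (I.prod I) ((ContinuousLinearMap.id ℝ E).prod (ContinuousLinearMap.id ℝ E))
      (fun x : X => (x, x)) := by
  intro x₀
  refine ⟨(x₀, x₀), 0, fun z hz => ?_⟩
  have e : ((ContinuousLinearMap.id ℝ E).prod (ContinuousLinearMap.id ℝ E)) z + 0 = (z, z) := by
    simp
  have ht : (z, z) ∈ (extChartAt (I.prod I) (x₀, x₀)).target := (target_prod _ _).2 ⟨hz, hz⟩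
  rw [e]
  refine ⟨ht, ?_, fun u => ?_⟩
  · rw [symm_prod]
  · rw [dch_prod _ ht]
    simp

/-- The derivative of `f × g`. -/
theorem dmap_prodMap {f : X → X} {g : Y → Y} {p : X × Y} (hf : MDifferentiableAt I I f p.1)
    (hg : MDifferentiableAt J J g p.2) (w : E × F) :
    dmap (I.prod J) (Prod.map f g) p w = (dmap I f p.1 w.1, dmap J g p.2 w.2) := by
  unfold dmap
  rw [mfderiv_prodMap hf hg]
  rfl

theorem dmap_id (x : X) (u : E) : dmap I (id : X → X) x u = u := by
  unfold dmap
  rw [mfderiv_id]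
  rfl

/-- The derivative of the swap. -/
theorem dmap_swap (p : X × X) (w : E × E) :
    dmap (I.prod I) (Prod.swap : X × X → X × X) p w = (w.2, w.1) := by
  unfold dmap
  have e : (Prod.swap : X × X → X × X) = fun q => (q.2, q.1) := rfl
  rw [e, mfderiv_prodMk mdifferentiableAt_snd mdifferentiableAt_fst, mfderiv_snd, mfderiv_fst]
  rfl

/-- The product form. -/
noncomputable def prodForm (Ω : X → LinearMap.BilinForm ℝ E) (σ : Y → LinearMap.BilinForm ℝ F) (p : X × Y) :
    LinearMap.BilinForm ℝ (E × F) :=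
  pull (ContinuousLinearMap.fst ℝ E F) Prod.fst Ω p + pull (ContinuousLinearMap.snd ℝ E F) Prod.snd σ p

omit [TopologicalSpace X] [TopologicalSpace Y] in
theorem prodForm_apply (Ω : X → LinearMap.BilinForm ℝ E) (σ : Y → LinearMap.BilinForm ℝ F)
    (p : X × Y) (w w' : E × F) : prodForm Ω σ p w w' = Ω p.1 w.1 w'.1 + σ p.2 w.2 w'.2 := rfl

theorem prodForm_symplectic {Ω : X → LinearMap.BilinForm ℝ E} {σ : Y → LinearMap.BilinForm ℝ F}
    (hΩ : IsSymplectic I Ω) (hσ : IsSymplectic J σ) : IsSymplectic (I.prod J) (prodForm Ω σ) := by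
  refine ⟨add_closed (pull_closed chartwise_fst hΩ.toIsClosedForm)
    (pull_closed chartwise_snd hσ.toIsClosedForm), fun p w h => ?_⟩
  have h1 : w.1 = 0 := hΩ.nondeg p.1 w.1 fun v => by
    have := h (v, 0)
    rw [prodForm_apply] at this
    simpa using this
  have h2 : w.2 = 0 := hσ.nondeg p.2 w.2 fun v => by
    have := h (0, v)
    rw [prodForm_apply] at this
    simpa using this
  exact Prod.ext h1 h2

end Pool.Agent.TH809.SY
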