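import Pool.Agent.TH809.SY.Prod

/-!
# Symplectic forms on `X × X × Y` which are invariant under an exchange of the factors

Let `τ : Y → Y` be a map with a nondegenerate fixed point `y₀` (for instance `Y` a point, or `S²` with
the rotation by `π`), and let `g` be the map `(x, x', y) ↦ (x', x, τ y)` of `(X × X) × Y`.  If a
symplectic form on `(X × X) × Y` is invariant under `g` just at the points `(x, x, y₀)`, then its
restriction to the diagonal `{(x, x, y₀)}` is symplectic.  So `(X × X) × Y` has a `g`-invariant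
symplectic form if and only if `X` has a symplectic form (`Y` with a `τ`-invariant one).

With `X = #3 CP² #2 (-CP²)`, which is almost complex, has classes `b` with `b² > 0`, and is not
symplectic by Taubes, this shows that for `M = X × X × (S²)^k` and the invariant data (the product
almost complex structure, the class `b + b + [S²] + ...`) there is no invariant symplectic form.
-/

set_option autoImplicit false

open scoped Manifold ContDiff
open Set Function

namespace Pool.Agent.Results.MP_bf98aa_gt.SwapInvariantForms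

open Pool.Agent.TH809.SY

variable {E H X : Type*} [NormedAddCommGroup E] [NormedSpace ℝ E] [FiniteDimensional ℝ E]
  [TopologicalSpace H] {I : ModelWithCorners ℝ E H} [TopologicalSpace X] [ChartedSpace H X]
  [I.Boundaryless] [IsManifold I ∞ X]
  {F G Y : Type*} [NormedAddCommGroup F] [NormedSpace ℝ F] [FiniteDimensional ℝ F]
  [TopologicalSpace G] {J : ModelWithCorners ℝ F G} [TopologicalSpace Y] [ChartedSpace G Y]
  [J.Boundaryless] [IsManifold J ∞ Y]

variable (J) in
/-- `y₀` is a nondegenerate fixed point of `τ`: `τ` is differentiable there and its derivative has no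
nonzero fixed vector. -/
structure NondegenerateFixedPoint (τ : Y → Y) (y₀ : Y) : Prop where
  diff : MDifferentiableAt J J τ y₀
  fixed : τ y₀ = y₀
  nondeg : ∀ w : F, dmap J τ y₀ w = w → w = 0

/-- The map `(x, x', y) ↦ (x', x, τ y)`. -/
def exch (τ : Y → Y) (p : (X × X) × Y) : (X × X) × Y := ((p.1.2, p.1.1), τ p.2)

/-- The restriction of a form on `(X × X) × Y` to the diagonal `{(x, x, y₀)}`, as a form on `X`: the
form `(u, v) ↦ Ω ((u, u), 0) ((v, v), 0)` at the point `((x, x), y₀)`. -/
noncomputable def diag (y₀ : Y) (Ω : (X × X) × Y → LinearMap.BilinForm ℝ ((E × E) × F)) :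
    X → LinearMap.BilinForm ℝ E :=
  pull ((ContinuousLinearMap.id ℝ E).prod (ContinuousLinearMap.id ℝ E)) (fun x : X => (x, x))
    (pull (ContinuousLinearMap.inl ℝ (E × E) F) (fun q : X × X => (q, y₀)) Ω)

omit [FiniteDimensional ℝ E] [TopologicalSpace H] [TopologicalSpace X] [FiniteDimensional ℝ F]
  [TopologicalSpace G] [TopologicalSpace Y] in
theorem diag_apply (y₀ : Y) (Ω : (X × X) × Y → LinearMap.BilinForm ℝ ((E × E) × F)) (x : X)
    (u v : E) : diag y₀ Ω x u v = Ω ((x, x), y₀) ((u, u), 0) ((v, v), 0) := rfl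

omit [FiniteDimensional ℝ E] [FiniteDimensional ℝ F] in
/-- The derivative of the exchange map. -/
theorem dmap_exch {τ : Y → Y} {p : (X × X) × Y} (hτ : MDifferentiableAt J J τ p.2)
    (v : (E × E) × F) :
    dmap ((I.prod I).prod J) (exch τ) p v = ((v.1.2, v.1.1), dmap J τ p.2 v.2) := by
  have e : (exch τ : (X × X) × Y → (X × X) × Y) = Prod.map Prod.swap τ := rfl
  have hs : MDifferentiableAt (I.prod I) (I.prod I) (Prod.swap : X × X → X × X) p.1 :=
    mdifferentiableAt_snd.prodMk mdifferentiableAt_fst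
  rw [e, dmap_prodMap hs hτ, dmap_swap]

theorem diag_symplectic {τ : Y → Y} {y₀ : Y} (hτ : NondegenerateFixedPoint J τ y₀)
    {Ω : (X × X) × Y → LinearMap.BilinForm ℝ ((E × E) × F)}
    (hΩ : IsSymplectic ((I.prod I).prod J) Ω)
    (hinv : ∀ (x : X) (v w : (E × E) × F), Ω (exch τ ((x, x), y₀))
      (dmap ((I.prod I).prod J) (exch τ) ((x, x), y₀) v)
      (dmap ((I.prod I).prod J) (exch τ) ((x, x), y₀) w) = Ω ((x, x), y₀) v w) :
    IsSymplectic I (diag y₀ Ω) := by
  refine ⟨pull_closed chartwise_diag (pull_closed (chartwise_inl y₀) hΩ.toIsClosedForm),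
    fun x u hu => ?_⟩
  let D : F →ₗ[ℝ] F := (dmap J τ y₀ : F →ₗ[ℝ] F) - LinearMap.id
  have hD : Surjective D := by
    rw [← LinearMap.injective_iff_surjective]
    refine (injective_iff_map_eq_zero D).2 fun w hw => hτ.nondeg w ?_
    exact sub_eq_zero.1 hw
  have e1 : exch τ ((x, x), y₀) = ((x, x), y₀) := Prod.ext rfl hτ.fixed
  have d1 : ∀ v : (E × E) × F, dmap ((I.prod I).prod J) (exch τ) ((x, x), y₀) v =
      ((v.1.2, v.1.1), dmap J τ y₀ v.2) := fun v => dmap_exch (p := ((x, x), y₀)) hτ.diff v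
  -- `((u, u), 0)` is orthogonal to the image of `dg - 1`
  have horth : ∀ v : (E × E) × F, Ω ((x, x), y₀) ((u, u), 0)
      (((v.1.2, v.1.1), dmap J τ y₀ v.2) - v) = 0 := by
    intro v
    have h := hinv x ((u, u), 0) v
    rw [d1, d1, e1] at h
    simp only [map_zero] at h
    rw [map_sub, h, sub_self]
  have hker : (((u, u), 0) : (E × E) × F) = 0 := by
    refine hΩ.nondeg ((x, x), y₀) ((u, u), 0) fun v => ?_
    obtain ⟨f, hf⟩ := hD v.2
    have hf' : dmap J τ y₀ f = v.2 + f := by
      rw [← hf]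
      simp [D]
    obtain ⟨⟨a, b⟩, c⟩ := v
    simp only at hf hf'
    have e3 : (((a, b), c) : (E × E) × F) =
        (((1 / 2 : ℝ) • (a + b), (1 / 2 : ℝ) • (a + b)), 0) +
          ((((1 / 4 : ℝ) • (a - b), (1 / 4 : ℝ) • (b - a)), dmap J τ y₀ f) -
            (((1 / 4 : ℝ) • (b - a), (1 / 4 : ℝ) • (a - b)), f)) := by
      rw [hf']
      ext
      · simp only [Prod.fst_add, Prod.fst_sub]
        module
      · simp only [Prod.fst_add, Prod.fst_sub, Prod.snd_add, Prod.snd_sub]
        module
      · simp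
    rw [e3, map_add, horth ((((1 / 4 : ℝ) • (b - a), (1 / 4 : ℝ) • (a - b)), f)), add_zero]
    exact hu _
  exact congrArg (fun z : (E × E) × F => z.1.1) hker

/-- **Symplectic forms on `X × X × Y` invariant under an exchange map.** -/
theorem result {τ : Y → Y} {y₀ : Y} (hτ : NondegenerateFixedPoint J τ y₀) :
    (∀ Ω : (X × X) × Y → LinearMap.BilinForm ℝ ((E × E) × F),
      IsSymplectic ((I.prod I).prod J) Ω →
      (∀ (x : X) (v w : (E × E) × F), Ω (exch τ ((x, x), y₀))
        (dmap ((I.prod I).prod J) (exch τ) ((x, x), y₀) v)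
        (dmap ((I.prod I).prod J) (exch τ) ((x, x), y₀) w) = Ω ((x, x), y₀) v w) →
      IsSymplectic I (diag y₀ Ω)) ∧
    (MDifferentiable J J τ →
      (∃ σ : Y → LinearMap.BilinForm ℝ F, IsSymplectic J σ ∧ Invariant J τ σ) →
      ((∃ Ω : (X × X) × Y → LinearMap.BilinForm ℝ ((E × E) × F),
          IsSymplectic ((I.prod I).prod J) Ω ∧ Invariant ((I.prod I).prod J) (exch τ) Ω) ↔
        ∃ Ω : X → LinearMap.BilinForm ℝ E, IsSymplectic I Ω)) := by
  refine ⟨fun Ω hΩ hinv => diag_symplectic hτ hΩ hinv, ?_⟩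
  rintro hd ⟨σ, hσ, hσi⟩
  constructor
  · rintro ⟨Ω, hΩ, hinv⟩
    exact ⟨_, diag_symplectic hτ hΩ fun x v w => hinv ((x, x), y₀) v w⟩
  · rintro ⟨Ω, hΩ⟩
    refine ⟨prodForm (prodForm Ω Ω) σ, prodForm_symplectic (prodForm_symplectic hΩ hΩ) hσ,
      fun p v w => ?_⟩
    rw [dmap_exch (hd p.2), dmap_exch (hd p.2)]
    simp only [prodForm_apply, exch]
    rw [hσi p.2 v.2 w.2, add_comm (Ω p.1.2 _ _)]

end Pool.Agent.Results.MP_bf98aa_gt.SwapInvariantForms
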